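import Pool.Agent.Q99.XF.Stm
import Pool.Agent.Q280.FAL.NL
import Pool.Agent.Q208.HT.D1
import Pool.Agent.Q24.HT.TBI
import Pool.Agent.Q280.KN.GAM
import Pool.Agent.Q208.KN.LC

/-!
# Project XF (helper99), job TI: the terms near the centre are values of an analytic function
-/

set_option autoImplicit false

namespace Pool.Agent.Q252.XF

open Finset Filter Topology MeasureTheory
open Pool.Agent.Q191.TW (cs)
open Pool.Agent.W719.BS (D LL)
open Pool.Agent.Q99.FAL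
open Pool.Agent.Q99.KN (LC bb Gm St ct S_LC S_GAM bc)
open Pool.Agent.Q99.HT
open Pool.Agent.Q299.FAL (vc XL)
open Pool.Agent.Q99.XF
open Pool.Agent.Q280.FAL (tp_of zer_of belt_gen belt_half bq_left bq_right hh_zero hh_half dn_half
  tN_eq pow_nV)

/-- a live bracket is a value of `TB` -/
lemma brk_eq {N : ℕ} (hN : 1 ≤ N) {n k : ℤ} (hn0 : 0 ≤ n) (hn : n < N) (hk0 : 0 ≤ k) (hk : k < N)
    (h : |((n : ℝ) + 1 / 2) / N - 1 / 2| + k / N < 1 / 2) :
    ((bq N n k : ℝ) : ℂ) = TB N (((n : ℂ) + 1 / 2) / N) ((k : ℂ) / N) := by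
  lift n to ℕ using hn0
  lift k to ℕ using hk0
  have hN0 : (N : ℝ) ≠ 0 := by exact_mod_cast (by omega : N ≠ 0)
  have hNc : (N : ℂ) ≠ 0 := by exact_mod_cast (by omega : N ≠ 0)
  have hn' : n < N := by exact_mod_cast hn
  have hk' : k < N := by exact_mod_cast hk
  rw [← (Pool.Agent.Q208.HT.task_D1 N hN).1 n k hn' hk']
  set ζ : ℝ := (2 * n + 1 - N) / N with hζ
  have e1 := Pool.Agent.Q24.HT.task_TBI Pool.Agent.Q208.KN.task_LC Pool.Agent.Q280.KN.task_GAM
    N k hN (ζ : ℂ) (by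
      rw [Complex.ofReal_re]
      have e2 : |ζ| / 2 = |((n : ℝ) + 1 / 2) / N - 1 / 2| := by
        have e3 : ((n : ℝ) + 1 / 2) / N - 1 / 2 = ζ / 2 := by
          rw [hζ]
          field_simp
        rw [e3, abs_div ζ 2, abs_of_pos (by norm_num : (0 : ℝ) < 2)]
      rw [e2]
      push_cast at h
      exact h)
  have e4 : ((N : ℂ) - 1 + N * (ζ : ℂ)) / 2 = n := by
    rw [hζ]
    push_cast
    field_simp
    ring
  have e5 : (1 : ℂ) / 2 + (ζ : ℂ) / 2 = ((n : ℂ) + 1 / 2) / N := by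
    rw [hζ]
    push_cast
    field_simp
    ring
  rw [e4, e5] at e1
  push_cast
  exact e1

variable {c d : ℕ}

/-- the coordinates of the points -/
lemma co {X : Net c} {p a : Fin c → Fin 6 → ℝ} {E : Fin d → Fin c → Fin 6 → ℤ} {τ : Fin d → ℝ}
    (hB : Bs X p a E τ) {N : ℕ} (hN : (N : ℝ) ≠ 0) (t : Fin d → ℤ) (b : Fin c) (i : Fin 6) :
    ((vc X E N t b i : ℤ) : ℝ) / N =
      a b i + ∑ j, ((t j : ℝ) / N - τ j) * (E j b i : ℝ) - (X.a0 b i : ℝ) / N := by
  have h1 := congrFun (congrFun hB.ctr b) i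
  simp only [Pi.sub_apply, Finset.sum_apply, Pi.smul_apply, toR, smul_eq_mul] at h1
  have h2 : ((vc X E N t b i : ℤ) : ℝ) = ((N : ℝ) - 1) * X.a0 b i + ∑ j, (t j : ℝ) * E j b i := by
    unfold vc
    simp only [Pi.add_apply, Finset.sum_apply, Pi.smul_apply, smul_eq_mul]
    push_cast
    ring
  have h3 : ∑ j, ((t j : ℝ) / N - τ j) * (E j b i : ℝ) =
      (∑ j, (t j : ℝ) * E j b i) / N - ∑ j, τ j * (E j b i : ℝ) := by
    rw [Finset.sum_div, ← Finset.sum_sub_distrib]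
    refine Finset.sum_congr rfl fun j _ => ?_
    ring
  rw [h2, h3, ← h1]
  field_simp
  ring

lemma co_n {X : Net c} {p a : Fin c → Fin 6 → ℝ} {E : Fin d → Fin c → Fin 6 → ℤ} {τ : Fin d → ℝ}
    (hB : Bs X p a E τ) {N : ℕ} (hN : (N : ℝ) ≠ 0) (t : Fin d → ℤ) (b : Fin c) :
    (((n1 (vc X E N t b) : ℤ) : ℝ) / N =
      1 / 2 + ∑ j, ((t j : ℝ) / N - τ j) * ((n1 (E j b) : ℤ) : ℝ) - ((n1 (X.a0 b) : ℤ) : ℝ) / N) ∧
    (((n2 (vc X E N t b) : ℤ) : ℝ) / N =
      1 / 2 + ∑ j, ((t j : ℝ) / N - τ j) * ((n2 (E j b) : ℤ) : ℝ) - ((n2 (X.a0 b) : ℤ) : ℝ) / N) := by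
  have hTp := tp_of hB.good hB.top
  have h1 := hTp.h1 b
  have h2 := hTp.h2 b
  have e := co hB hN t b
  unfold n1 at h1 ⊢
  unfold n2 at h2 ⊢
  constructor
  · rw [← h1]
    have e0 := e 0
    have e1 := e 1
    have e2 := e 2
    have e3 : ∑ j, ((t j : ℝ) / N - τ j) * ((E j b 0 + E j b 1 + E j b 2 : ℤ) : ℝ) =
        ∑ j, ((t j : ℝ) / N - τ j) * (E j b 0 : ℝ) + ∑ j, ((t j : ℝ) / N - τ j) * (E j b 1 : ℝ) +
          ∑ j, ((t j : ℝ) / N - τ j) * (E j b 2 : ℝ) := by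
      rw [← Finset.sum_add_distrib, ← Finset.sum_add_distrib]
      refine Finset.sum_congr rfl fun j _ => ?_
      push_cast
      ring
    rw [e3]
    push_cast
    rw [add_div, add_div, e0, e1, e2]
    ring
  · rw [← h2]
    have e0 := e 3
    have e1 := e 4
    have e2 := e 5
    have e3 : ∑ j, ((t j : ℝ) / N - τ j) * ((E j b 3 + E j b 4 + E j b 5 : ℤ) : ℝ) =
        ∑ j, ((t j : ℝ) / N - τ j) * (E j b 3 : ℝ) + ∑ j, ((t j : ℝ) / N - τ j) * (E j b 4 : ℝ) +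
          ∑ j, ((t j : ℝ) / N - τ j) * (E j b 5 : ℝ) := by
      rw [← Finset.sum_add_distrib, ← Finset.sum_add_distrib]
      refine Finset.sum_congr rfl fun j _ => ?_
      push_cast
      ring
    rw [e3]
    push_cast
    rw [add_div, add_div, e0, e1, e2]
    ring

lemma co_dn {X : Net c} {p a : Fin c → Fin 6 → ℝ} {E : Fin d → Fin c → Fin 6 → ℤ} {τ : Fin d → ℝ}
    (hB : Bs X p a E τ) {N : ℕ} (hN : (N : ℝ) ≠ 0) (t : Fin d → ℤ) (b : Fin c) (i : Fin 6) :
    (((dn (vc X E N t b) i : ℤ) : ℝ) + 1 / 2) / N =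
      1 / 2 + ∑ j, ((t j : ℝ) / N - τ j) * ((dn (E j b) i : ℤ) : ℝ) +
        (1 / 2 - ((dn (X.a0 b) i : ℤ) : ℝ)) / N := by
  obtain ⟨h1, h2⟩ := co_n hB hN t b
  by_cases h : i = 0 ∨ i = 4 ∨ i = 5
  · simp only [dn, if_pos h]
    rw [add_div, h2]
    ring
  · simp only [dn, if_neg h]
    rw [add_div, h1]
    ring

lemma ex_min {ι : Type} [Finite ι] (f : ι → ℝ) (hf : ∀ i, 0 < f i) :
    ∃ R : ℝ, 0 < R ∧ ∀ i, R ≤ f i := by
  obtain ⟨M, hM⟩ := Finite.exists_ge (fun i => (⟨f i, hf i⟩ : {x : ℝ // 0 < x}))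
  exact ⟨M.1, M.2, fun i => hM i⟩

lemma sum_bound {v : Fin d → ℝ} {R : ℝ} (hv : ∀ j, |v j| < R) (e : Fin d → ℝ) :
    |∑ j, v j * e j| ≤ R * ∑ j, |e j| := by
  refine (Finset.abs_sum_le_sum_abs _ _).trans ?_
  rw [Finset.mul_sum]
  refine Finset.sum_le_sum fun j _ => ?_
  rw [abs_mul]
  exact mul_le_mul_of_nonneg_right (hv j).le (abs_nonneg _)

open Classical in
/-- **job TI** -/
theorem task_TI : S_TI := by
  intro c d X p a E τ w hB
  have hG := hB.good
  have hT := hB.top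
  have hTp := tp_of hG hT
  have hle : ∀ b i, a b i ≤ 1 / 2 := by
    intro b i
    have h1 := hTp.h1 b
    have h2 := hTp.h2 b
    unfold n1 at h1
    unfold n2 at h2
    have e := hTp.nn b
    have e0 := e 0
    have e1 := e 1
    have e2 := e 2
    have e3 := e 3
    have e4 := e 4
    have e5 := e 5
    fin_cases i
    · show a b 0 ≤ 1 / 2
      linarith
    · show a b 1 ≤ 1 / 2
      linarith
    · show a b 2 ≤ 1 / 2
      linarith
    · show a b 3 ≤ 1 / 2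
      linarith
    · show a b 4 ≤ 1 / 2
      linarith
    · show a b 5 ≤ 1 / 2
      linarith
  have hm : ∀ q : Fin c × Fin 6, ∃ m : ℝ, 0 < m ∧ m ≤ 1 / 2 ∧
      (Lv a q.1 q.2 → m ≤ a q.1 q.2 ∧ m ≤ 1 / 2 - a q.1 q.2) := by
    intro q
    by_cases h : Lv a q.1 q.2
    · have h1 : 0 < a q.1 q.2 := lt_of_le_of_ne (hTp.nn _ _) (Ne.symm h.1)
      have h2 : a q.1 q.2 < 1 / 2 := lt_of_le_of_ne (hle _ _) h.2
      refine ⟨min (a q.1 q.2) (1 / 2 - a q.1 q.2), lt_min h1 (by linarith), ?_, fun _ =>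
        ⟨min_le_left _ _, min_le_right _ _⟩⟩
      exact (min_le_left _ _).trans h2.le
    · exact ⟨1 / 2, by norm_num, le_rfl, fun h' => absurd h' h⟩
  choose m hm0 hm1 hm2 using hm
  set M : Fin c × Fin 6 → ℝ := fun q => 1 + ∑ j, |((E j q.1 q.2 : ℤ) : ℝ)| +
    ∑ j, |((dn (E j q.1) q.2 : ℤ) : ℝ)| with hM
  have hs1 : ∀ q : Fin c × Fin 6, 0 ≤ ∑ j, |((E j q.1 q.2 : ℤ) : ℝ)| := fun q =>
    Finset.sum_nonneg fun j _ => abs_nonneg _
  have hs2 : ∀ q : Fin c × Fin 6, 0 ≤ ∑ j, |((dn (E j q.1) q.2 : ℤ) : ℝ)| := fun q =>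
    Finset.sum_nonneg fun j _ => abs_nonneg _
  have hM0 : ∀ q, 0 < M q := by
    intro q
    have := hs1 q
    have := hs2 q
    simp only [hM]
    linarith
  obtain ⟨R, hR0, hR⟩ := ex_min (fun q => m q / (8 * M q)) fun q => by
    have := hm0 q
    have := hM0 q
    positivity
  have hRM : ∀ q, R * M q ≤ m q / 8 := by
    intro q
    have h1 := mul_le_mul_of_nonneg_right (hR q) (hM0 q).le
    have h2 : m q / (8 * M q) * M q = m q / 8 := by
      have := (hM0 q).ne'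
      field_simp
    rwa [h2] at h1
  refine ⟨R, hR0, ?_⟩
  have hev : ∀ᶠ N : ℕ in atTop, ∀ q : Fin c × Fin 6,
      8 * (|((X.a0 q.1 q.2 : ℤ) : ℝ)| + |1 / 2 - ((dn (X.a0 q.1) q.2 : ℤ) : ℝ)|) / m q ≤ N :=
    eventually_all.2 fun q => tendsto_natCast_atTop_atTop.eventually_ge_atTop _
  filter_upwards [hev, eventually_ge_atTop 2] with N hN hN2 t ht
  have hNp : (0 : ℝ) < N := by exact_mod_cast (by omega : 0 < N)
  have hN0 : (N : ℝ) ≠ 0 := hNp.ne'
  have hNc : (N : ℂ) ≠ 0 := by exact_mod_cast (by omega : N ≠ 0)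
  have hN2' : (2 : ℝ) ≤ N := by exact_mod_cast hN2
  -- the point
  set a' := vc X E N t with ha'
  have hmem : a' - ((N : ℤ) - 1) • X.a0 ∈ X.L := by
    have : a' - ((N : ℤ) - 1) • X.a0 = ∑ j, t j • E j := by
      rw [ha']
      unfold vc
      exact add_sub_cancel_left _ _
    rw [this]
    exact hB.mem t
  have hz := zer_of hG hT hmem
  -- bounds
  have hsh : ∀ q : Fin c × Fin 6, |((X.a0 q.1 q.2 : ℤ) : ℝ) / N| ≤ m q / 8 ∧
      |(1 / 2 - ((dn (X.a0 q.1) q.2 : ℤ) : ℝ)) / N| ≤ m q / 8 := by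
    intro q
    have h1 := hN q
    rw [div_le_iff₀ (hm0 q)] at h1
    have h2 := abs_nonneg ((X.a0 q.1 q.2 : ℤ) : ℝ)
    have h3 := abs_nonneg (1 / 2 - ((dn (X.a0 q.1) q.2 : ℤ) : ℝ))
    rw [abs_div, abs_div, abs_of_pos hNp]
    constructor
    · rw [div_le_iff₀ hNp]
      linarith
    · rw [div_le_iff₀ hNp]
      linarith
  have hk : ∀ b i, |((a' b i : ℤ) : ℝ) / N - a b i| ≤ m (b, i) / 4 := by
    intro b i
    rw [ha', co hB hN0 t b i]
    have h1 := sum_bound ht (fun j => ((E j b i : ℤ) : ℝ))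
    have h2 := hRM (b, i)
    have h3 : R * ∑ j, |((E j b i : ℤ) : ℝ)| ≤ R * M (b, i) := by
      apply mul_le_mul_of_nonneg_left _ hR0.le
      have := hs2 (b, i)
      simp only [hM]
      linarith
    have h4 := (hsh (b, i)).1
    rw [abs_le] at h1 h4 ⊢
    simp only at h4
    constructor <;> linarith [h1.1, h1.2, h4.1, h4.2]
  have hn : ∀ b i, |(((dn (a' b) i : ℤ) : ℝ) + 1 / 2) / N - 1 / 2| ≤ m (b, i) / 4 := by
    intro b i
    rw [ha', co_dn hB hN0 t b i]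
    have h1 := sum_bound ht (fun j => ((dn (E j b) i : ℤ) : ℝ))
    have h2 := hRM (b, i)
    have h3 : R * ∑ j, |((dn (E j b) i : ℤ) : ℝ)| ≤ R * M (b, i) := by
      apply mul_le_mul_of_nonneg_left _ hR0.le
      have := hs1 (b, i)
      simp only [hM]
      linarith
    have h4 := (hsh (b, i)).2
    rw [abs_le] at h1 h4 ⊢
    simp only at h4
    constructor <;> linarith [h1.1, h1.2, h4.1, h4.2]
  have hrange : ∀ b i, 0 ≤ dn (a' b) i ∧ dn (a' b) i ≤ (N : ℤ) - 1 := by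
    intro b i
    have h1 := hn b i
    have h2 := hm1 (b, i)
    rw [abs_le] at h1
    have h3 : (3 / 8 : ℝ) ≤ (((dn (a' b) i : ℤ) : ℝ) + 1 / 2) / N := by linarith [h1.1]
    have h4 : (((dn (a' b) i : ℤ) : ℝ) + 1 / 2) / N ≤ 5 / 8 := by linarith [h1.2]
    rw [le_div_iff₀ hNp] at h3
    rw [div_le_iff₀ hNp] at h4
    constructor
    · have : (-1 : ℝ) < ((dn (a' b) i : ℤ) : ℝ) := by linarith
      have : (-1 : ℤ) < dn (a' b) i := by exact_mod_cast this
      omega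
    · have : ((dn (a' b) i : ℤ) : ℝ) < N := by linarith
      have : dn (a' b) i < (N : ℤ) := by exact_mod_cast this
      omega
  -- complex coordinates
  have hxi : ∀ b i, xi a E b i (fun j => (t j : ℂ) / N - τ j) - (((X.a0 b i : ℤ) : ℝ) : ℂ) / N =
      ((a' b i : ℤ) : ℂ) / N := by
    intro b i
    have h1 := co hB hN0 t b i
    rw [← ha'] at h1
    have h2 : (((a' b i : ℤ) : ℂ)) / N = (((((a' b i : ℤ) : ℝ)) / N : ℝ) : ℂ) := by push_cast; rfl
    rw [h2, h1]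
    unfold xi
    push_cast
    ring
  have hnu : ∀ b i, nu' E b i (fun j => (t j : ℂ) / N - τ j) +
      ((1 / 2 - (dn (X.a0 b) i : ℤ) : ℝ) : ℂ) / N = (((dn (a' b) i : ℤ) : ℂ) + 1 / 2) / N := by
    intro b i
    have h1 := co_dn hB hN0 t b i
    rw [← ha'] at h1
    have h2 : (((dn (a' b) i : ℤ) : ℂ) + 1 / 2) / N =
        (((((dn (a' b) i : ℤ) : ℝ) + 1 / 2) / N : ℝ) : ℂ) := by push_cast; rfl
    rw [h2, h1]
    unfold nu'
    push_cast
    ring
  have hze : ∀ b, ((n1 (a' b) - n2 (a' b) : ℤ) : ℂ) =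
      N * ze E b (fun j => (t j : ℂ) / N - τ j) - kap X b := by
    intro b
    obtain ⟨h1, h2⟩ := co_n hB hN0 t b
    rw [← ha'] at h1 h2
    rw [div_eq_iff hN0] at h1 h2
    have h3 : ((n1 (a' b) - n2 (a' b) : ℤ) : ℂ) =
        (((((n1 (a' b) : ℤ) : ℝ)) - ((n2 (a' b) : ℤ) : ℝ) : ℝ) : ℂ) := by push_cast; rfl
    rw [h3, h1, h2]
    unfold ze kap
    have h4 : ∑ j, ((t j : ℂ) / N - τ j) * ((n1 (E j b) - n2 (E j b) : ℤ) : ℂ) =
        ∑ j, ((t j : ℂ) / N - τ j) * ((n1 (E j b) : ℤ) : ℂ) -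
          ∑ j, ((t j : ℂ) / N - τ j) * ((n2 (E j b) : ℤ) : ℂ) := by
      rw [← Finset.sum_sub_distrib]
      refine Finset.sum_congr rfl fun j _ => ?_
      push_cast
      ring
    rw [h4]
    push_cast
    field_simp
    ring
  -- the factors
  have hfac : ∀ b i, ((if Lv a b i then ((√N : ℝ) : ℂ) else 1) *
      Complex.exp (-(N * (hh (a b i) : ℂ)))) * ((bq N (dn (a' b) i) (a' b i) : ℝ) : ℂ) =
      Complex.exp (N * (if Lv a b i then LT (nu' E b i (fun j => (t j : ℂ) / N - τ j))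
        (xi a E b i (fun j => (t j : ℂ) / N - τ j)) - (hh (a b i) : ℂ) else 0)) *
      (if Lv a b i then ((√N : ℝ) : ℂ) *
        TB N (nu' E b i (fun j => (t j : ℂ) / N - τ j) + ((1 / 2 - (dn (X.a0 b) i : ℤ) : ℝ) : ℂ) / N)
        (xi a E b i (fun j => (t j : ℂ) / N - τ j) - (((X.a0 b i : ℤ) : ℝ) : ℂ) / N) *
      Complex.exp (-(N * LT (nu' E b i (fun j => (t j : ℂ) / N - τ j))
        (xi a E b i (fun j => (t j : ℂ) / N - τ j)))) else 1) := by
    intro b i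
    by_cases hL : Lv a b i
    · rw [if_pos hL, if_pos hL, if_pos hL, hnu, hxi]
      have h1 := hk b i
      have h2 := hn b i
      obtain ⟨h3, h4⟩ := hm2 (b, i) hL
      have h5 := hm0 (b, i)
      simp only at h3 h4
      rw [abs_le] at h1
      have hk1 : 0 < ((a' b i : ℤ) : ℝ) / N := by linarith [h1.1]
      have hk2 : ((a' b i : ℤ) : ℝ) / N < 1 := by linarith [h1.2]
      rw [div_pos_iff_of_pos_right hNp] at hk1
      rw [div_lt_one hNp] at hk2
      have e1 := brk_eq (N := N) (by omega) (hrange b i).1 (by have := (hrange b i).2; omega)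
        (by exact_mod_cast hk1.le : (0 : ℤ) ≤ a' b i) (by exact_mod_cast hk2)
        (by linarith [h1.2])
      rw [e1]
      have e2 : Complex.exp (N * (LT (nu' E b i (fun j => (t j : ℂ) / N - τ j))
          (xi a E b i (fun j => (t j : ℂ) / N - τ j)) - (hh (a b i) : ℂ))) =
          Complex.exp (-(N * (hh (a b i) : ℂ))) *
          Complex.exp (N * LT (nu' E b i (fun j => (t j : ℂ) / N - τ j))
          (xi a E b i (fun j => (t j : ℂ) / N - τ j))) := by
        rw [← Complex.exp_add]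
        congr 1
        ring
      have e3 : Complex.exp (N * LT (nu' E b i (fun j => (t j : ℂ) / N - τ j))
          (xi a E b i (fun j => (t j : ℂ) / N - τ j))) *
          Complex.exp (-(N * LT (nu' E b i (fun j => (t j : ℂ) / N - τ j))
          (xi a E b i (fun j => (t j : ℂ) / N - τ j)))) = 1 := by
        rw [← Complex.exp_add, add_neg_cancel, Complex.exp_zero]
      rw [e2]
      linear_combination (-(((√N : ℝ) : ℂ) * Complex.exp (-(N * (hh (a b i) : ℂ))) *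
        TB N ((((dn (a' b) i : ℤ) : ℂ) + 1 / 2) / N) (((a' b i : ℤ) : ℂ) / N))) * e3
    · rw [if_neg hL, if_neg hL, if_neg hL, mul_zero, Complex.exp_zero, one_mul, one_mul]
      have hcase : a b i = 0 ∨ a b i = 1 / 2 := by
        unfold Lv at hL
        by_cases h : a b i = 0
        · exact Or.inl h
        · right
          by_contra h'
          exact hL ⟨h, h'⟩
      rcases hcase with h | h
      · rw [hz b i h, bq_left (hrange b i).1 (hrange b i).2, h, hh_zero]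
        simp
      · have h3 := belt_gen (hTp.nn b) (hTp.h1 b) (hTp.h2 b) (hTp.s1 b) (hTp.s2 b) (hTp.s3 b)
          (hTp.s4 b) h
        have h4 := belt_half (a' := a' b) (hTp.nn b) (hTp.h1 b) (hTp.h2 b) h h3.1 (hz b)
        rw [h4, bq_right (hrange b i).1 (hrange b i).2, h, hh_half]
        simp
  have hph : ∀ b, cs N (w b * ((n1 (a' b) - n2 (a' b) : ℤ) : ℝ) ^ 2 / 4) =
      Complex.exp (N * (Complex.I * Real.pi * w b / 4 * ze E b (fun j => (t j : ℂ) / N - τ j) ^ 2)) *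
      Complex.exp (Complex.I * Real.pi * w b * (-(kap X b *
        ze E b (fun j => (t j : ℂ) / N - τ j) / 2) + kap X b ^ 2 / (4 * N))) := by
    intro b
    unfold cs
    rw [← Complex.exp_add]
    congr 1
    have h1 : (((Real.pi * (w b * ((n1 (a' b) - n2 (a' b) : ℤ) : ℝ) ^ 2 / 4) / N : ℝ)) : ℂ) =
        Real.pi * (w b * ((n1 (a' b) - n2 (a' b) : ℤ) : ℂ) ^ 2 / 4) / N := by push_cast; rfl
    rw [h1, hze b]
    field_simp
    ring
  -- the products
  have hL1 : (((√N ^ nV p * Real.exp (-(N * fV a)) : ℝ) : ℂ)) =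
      ∏ b, ∏ i, ((if Lv a b i then ((√N : ℝ) : ℂ) else 1) *
      Complex.exp (-(N * (hh (a b i) : ℂ)))) := by
    rw [Complex.ofReal_mul, Complex.ofReal_exp, pow_nV hTp]
    have e1 : ((∏ b, ∏ i, (if a b i ≠ 0 ∧ a b i ≠ 1 / 2 then √(N : ℝ) else 1) : ℝ) : ℂ) =
        ∏ b, ∏ i, (if Lv a b i then ((√N : ℝ) : ℂ) else 1) := by
      rw [Complex.ofReal_prod]
      refine Finset.prod_congr rfl fun b _ => ?_
      rw [Complex.ofReal_prod]
      refine Finset.prod_congr rfl fun i _ => ?_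
      by_cases h : Lv a b i
      · rw [if_pos h, if_pos (show a b i ≠ 0 ∧ a b i ≠ 1 / 2 from h)]
      · rw [if_neg h, if_neg (show ¬ (a b i ≠ 0 ∧ a b i ≠ 1 / 2) from h), Complex.ofReal_one]
    have e2 : Complex.exp ((-(N * fV a) : ℝ) : ℂ) =
        ∏ b, ∏ i, Complex.exp (-(N * (hh (a b i) : ℂ))) := by
      simp_rw [← Complex.exp_sum]
      congr 1
      unfold fV
      push_cast
      rw [Finset.mul_sum, ← Finset.sum_neg_distrib]
      refine Finset.sum_congr rfl fun b _ => ?_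
      rw [Finset.mul_sum, ← Finset.sum_neg_distrib]
    rw [e1, e2, ← Finset.prod_mul_distrib]
    refine Finset.prod_congr rfl fun b _ => ?_
    rw [← Finset.prod_mul_distrib]
  have hR1 : Complex.exp (N * qq w a E (fun j => (t j : ℂ) / N - τ j)) =
      (∏ b, ∏ i, Complex.exp (N * (if Lv a b i then LT (nu' E b i (fun j => (t j : ℂ) / N - τ j))
        (xi a E b i (fun j => (t j : ℂ) / N - τ j)) - (hh (a b i) : ℂ) else 0))) *
      ∏ b, Complex.exp (N * (Complex.I * Real.pi * w b / 4 *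
        ze E b (fun j => (t j : ℂ) / N - τ j) ^ 2)) := by
    unfold qq
    rw [mul_add, Complex.exp_add, Finset.mul_sum, Complex.exp_sum, Finset.mul_sum, Complex.exp_sum]
    congr 1
    refine Finset.prod_congr rfl fun b _ => ?_
    rw [Finset.mul_sum, Complex.exp_sum]
  rw [hL1, hR1, tN_eq, Complex.ofReal_prod]
  unfold HH
  simp_rw [Complex.ofReal_prod]
  have e5 : (∏ b, ∏ i, ((if Lv a b i then ((√N : ℝ) : ℂ) else 1) *
      Complex.exp (-(N * (hh (a b i) : ℂ))))) *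
      (∏ b, ∏ i, ((bq N (dn (a' b) i) (a' b i) : ℝ) : ℂ)) =
      (∏ b, ∏ i, Complex.exp (N * (if Lv a b i then LT (nu' E b i (fun j => (t j : ℂ) / N - τ j))
        (xi a E b i (fun j => (t j : ℂ) / N - τ j)) - (hh (a b i) : ℂ) else 0))) *
      (∏ b, ∏ i, (if Lv a b i then ((√N : ℝ) : ℂ) *
        TB N (nu' E b i (fun j => (t j : ℂ) / N - τ j) + ((1 / 2 - (dn (X.a0 b) i : ℤ) : ℝ) : ℂ) / N)
        (xi a E b i (fun j => (t j : ℂ) / N - τ j) - (((X.a0 b i : ℤ) : ℝ) : ℂ) / N) *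
      Complex.exp (-(N * LT (nu' E b i (fun j => (t j : ℂ) / N - τ j))
        (xi a E b i (fun j => (t j : ℂ) / N - τ j)))) else 1)) := by
    rw [← Finset.prod_mul_distrib, ← Finset.prod_mul_distrib]
    refine Finset.prod_congr rfl fun b _ => ?_
    rw [← Finset.prod_mul_distrib, ← Finset.prod_mul_distrib]
    exact Finset.prod_congr rfl fun i _ => hfac b i
  have e6 : (∏ b, cs N (w b * ((n1 (a' b) - n2 (a' b) : ℤ) : ℝ) ^ 2 / 4)) =
      (∏ b, Complex.exp (N * (Complex.I * Real.pi * w b / 4 *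
        ze E b (fun j => (t j : ℂ) / N - τ j) ^ 2))) *
      ∏ b, Complex.exp (Complex.I * Real.pi * w b * (-(kap X b *
        ze E b (fun j => (t j : ℂ) / N - τ j) / 2) + kap X b ^ 2 / (4 * N))) := by
    rw [← Finset.prod_mul_distrib]
    exact Finset.prod_congr rfl fun b _ => hph b
  rw [e6, ← mul_assoc, mul_comm (∏ b, ∏ i, _) (_ * _), mul_assoc, e5]
  ring

end Pool.Agent.Q252.XF
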